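import Pool.Agent.D0H44.EC.StmB
import Pool.Agent.D0H51.FR.PS

/-! Project EC, package PSA: partial summation inside a class. -/

set_option autoImplicit false

open Finset MeasureTheory

namespace Pool.Agent.D0H86.EC

open Pool.Agent.H398R2.BV Pool.Agent.H410R2
open Pool.Agent.D0H44.EL Pool.Agent.D0H44.FR Pool.Agent.D0H44.EC Pool.Agent.D0H51.FR

/-- the continuous form of `TL` -/
noncomputable def PGc (N : ℕ) (g : ℕ → ℝ) (f : ℕ) (ψ : DirichletCharacter ℂ f) (y : ℝ) : ℂ :=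
  ∑ n ∈ Icc 1 N, (g n : ℂ) * ψ (n : ZMod f) * ((max (Real.log (y / n)) 0 : ℝ) : ℂ)

theorem PGc_eq (N : ℕ) (g : ℕ → ℝ) (f : ℕ) (ψ : DirichletCharacter ℂ f) (y : ℝ) (hy : 0 < y)
    (hN : ⌊y⌋₊ ≤ N) : TL y f ψ g = PGc N g f ψ y := by
  unfold TL PGc
  rw [← sum_subset (Icc_subset_Icc_right hN)]
  · apply sum_congr rfl
    intro n hn
    rw [mem_Icc] at hn
    congr 2
    rw [max_eq_left]
    apply Real.log_nonneg
    have hn0 : (0 : ℝ) < n := by exact_mod_cast (by omega : 0 < n)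
    rw [le_div_iff₀ hn0, one_mul]
    exact (Nat.le_floor_iff hy.le).1 hn.2
  · intro n hn hn'
    rw [mem_Icc] at hn hn'
    have h1 : ¬ n ≤ ⌊y⌋₊ := fun h => hn' ⟨hn.1, h⟩
    have hn0 : (0 : ℝ) < n := by exact_mod_cast (by omega : 0 < n)
    rw [Nat.le_floor_iff hy.le] at h1
    rw [max_eq_right]
    · simp
    · apply Real.log_nonpos (by positivity)
      rw [div_le_one hn0]
      linarith

theorem PGc_cont (N : ℕ) (g : ℕ → ℝ) (f : ℕ) (ψ : DirichletCharacter ℂ f) :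
    ContinuousOn (PGc N g f ψ) (Set.Ici 1) := by
  unfold PGc
  apply continuousOn_finsetSum
  intro n hn
  rw [mem_Icc] at hn
  apply ContinuousOn.mul continuousOn_const
  exact Complex.continuous_ofReal.comp_continuousOn (mx_cont n hn.1)

theorem ps_gen (o o1 o2 : ℝ → ℝ) (C Y : ℝ) (M : ℕ) (hY : 1 ≤ Y) (hYM : Y ≤ M)
    (hd : ∀ y, HasDerivAt o (o1 y) y) (hd1 : ∀ y, HasDerivAt o1 (o2 y) y) (hc : Continuous o2)
    (h0 : ∀ y, Y ≤ y → o y = 0) (hb : ∀ y, 1 ≤ y → y ≤ Y → |o1 y + y * o2 y| ≤ C / y)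
    (g : ℕ → ℝ) (f : ℕ) (ψ : DirichletCharacter ℂ f) :
    ‖∑ n ∈ Icc 1 M, (g n : ℂ) * ψ (n : ZMod f) * ((o n : ℝ) : ℂ)‖ ≤
      C * ∫ y in (1 : ℝ)..Y, ‖PGc ⌊Y⌋₊ g f ψ y‖ / y := by
  have hY0 : 0 < Y := by linarith
  have hc1 : Continuous o1 := continuous_iff_continuousAt.2 fun y => (hd1 y).continuousAt
  have hh : Continuous fun y => o1 y + y * o2 y := hc1.add (continuous_id.mul hc)
  have hsub : Set.uIcc 1 Y ⊆ Set.Ici (1 : ℝ) := by
    intro x hx
    rw [Set.uIcc_of_le hY] at hx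
    exact hx.1
  have hPG : ContinuousOn (PGc ⌊Y⌋₊ g f ψ) (Set.uIcc 1 Y) := (PGc_cont _ _ _ _).mono hsub
  have h1 : ∑ n ∈ Icc 1 M, (g n : ℂ) * ψ (n : ZMod f) * ((o n : ℝ) : ℂ) =
      ∫ y in (1 : ℝ)..Y, PGc ⌊Y⌋₊ g f ψ y * ((o1 y + y * o2 y : ℝ) : ℂ) := by
    have e1 : ∑ n ∈ Icc 1 M, (g n : ℂ) * ψ (n : ZMod f) * ((o n : ℝ) : ℂ) =
        ∑ n ∈ Icc 1 ⌊Y⌋₊, (g n : ℂ) * ψ (n : ZMod f) * ((o n : ℝ) : ℂ) := by
      symm
      apply sum_subset (Icc_subset_Icc_right (Nat.floor_le_of_le hYM))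
      intro n hn hn'
      rw [mem_Icc] at hn hn'
      have h1 : ¬ n ≤ ⌊Y⌋₊ := fun h => hn' ⟨hn.1, h⟩
      rw [Nat.le_floor_iff hY0.le] at h1
      rw [h0 n (by linarith)]
      simp
    rw [e1]
    have e2 : ∀ y, PGc ⌊Y⌋₊ g f ψ y * ((o1 y + y * o2 y : ℝ) : ℂ) = ∑ n ∈ Icc 1 ⌊Y⌋₊,
        (g n : ℂ) * ψ (n : ZMod f) *
          ((max (Real.log (y / n)) 0 * (o1 y + y * o2 y) : ℝ) : ℂ) := by
      intro y
      unfold PGc
      rw [sum_mul]
      apply sum_congr rfl
      intro n _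
      push_cast
      ring
    simp only [e2]
    rw [intervalIntegral.integral_finsetSum]
    · apply sum_congr rfl
      intro n hn
      rw [mem_Icc] at hn
      have hnY : (n : ℝ) ≤ Y := (Nat.le_floor_iff hY0.le).1 hn.2
      rw [intervalIntegral.integral_const_mul]
      congr 1
      rw [← o_eq hd hd1 hc h0 n hn.1 hnY]
      exact intervalIntegral.integral_ofReal.symm
    · intro n hn
      rw [mem_Icc] at hn
      apply ContinuousOn.intervalIntegrable
      apply ContinuousOn.mul continuousOn_const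
      apply Complex.continuous_ofReal.comp_continuousOn
      exact ((mx_cont n hn.1).mono hsub).mul hh.continuousOn
  rw [h1, ← intervalIntegral.integral_const_mul]
  refine (intervalIntegral.norm_integral_le_integral_norm hY).trans ?_
  apply intervalIntegral.integral_mono_on hY
  · apply ContinuousOn.intervalIntegrable
    exact (hPG.mul (Complex.continuous_ofReal.comp_continuousOn hh.continuousOn)).norm
  · apply ContinuousOn.intervalIntegrable
    apply ContinuousOn.mul continuousOn_const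
    apply ContinuousOn.div hPG.norm continuousOn_id
    intro x hx
    have : (1 : ℝ) ≤ x := hsub hx
    simp only [id]
    linarith
  · intro y hy
    rw [Set.mem_Icc] at hy
    rw [norm_mul, Complex.norm_real, Real.norm_eq_abs]
    have h2 := hb y hy.1 hy.2
    calc ‖PGc ⌊Y⌋₊ g f ψ y‖ * |o1 y + y * o2 y| ≤ ‖PGc ⌊Y⌋₊ g f ψ y‖ * (C / y) := by gcongr
      _ = _ := by ring

theorem is_gen (S : Finset ℕ) (Y B : ℝ) (hY : 1 ≤ Y) (g : ℕ → ℝ)
    (hB : ∀ y : ℝ, 1 ≤ y → y ≤ Y → ∑ f ∈ S, ∑ ψ ∈ Prim f, ‖TL y f ψ g‖ ≤ B) :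
    ∑ f ∈ S, ∑ ψ ∈ Prim f, ∫ y in (1 : ℝ)..Y, ‖PGc ⌊Y⌋₊ g f ψ y‖ / y ≤ B * Real.log Y := by
  have hY0 : 0 < Y := by linarith
  have hsub : Set.uIcc 1 Y ⊆ Set.Ici (1 : ℝ) := by
    intro x hx
    rw [Set.uIcc_of_le hY] at hx
    exact hx.1
  have hcont : ∀ (f : ℕ) (ψ : DirichletCharacter ℂ f),
      ContinuousOn (fun y => ‖PGc ⌊Y⌋₊ g f ψ y‖ / y) (Set.uIcc 1 Y) := by
    intro f ψ
    apply ContinuousOn.div ((PGc_cont _ _ _ _).mono hsub).norm continuousOn_id
    intro x hx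
    have : (1 : ℝ) ≤ x := hsub hx
    simp only [id]
    linarith
  have h1 : ∑ f ∈ S, ∑ ψ ∈ Prim f, ∫ y in (1 : ℝ)..Y, ‖PGc ⌊Y⌋₊ g f ψ y‖ / y =
      ∫ y in (1 : ℝ)..Y, ∑ f ∈ S, ∑ ψ ∈ Prim f, ‖PGc ⌊Y⌋₊ g f ψ y‖ / y := by
    rw [intervalIntegral.integral_finsetSum]
    · apply sum_congr rfl
      intro f _
      rw [intervalIntegral.integral_finsetSum]
      intro ψ _
      exact (hcont f ψ).intervalIntegrable
    · intro f _
      exact (continuousOn_finsetSum _ fun ψ _ => hcont f ψ).intervalIntegrable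
  rw [h1]
  have h2 : ∫ y in (1 : ℝ)..Y, ∑ f ∈ S, ∑ ψ ∈ Prim f, ‖PGc ⌊Y⌋₊ g f ψ y‖ / y ≤
      ∫ y in (1 : ℝ)..Y, B * y⁻¹ := by
    apply intervalIntegral.integral_mono_on hY
    · exact (continuousOn_finsetSum _ fun f _ => continuousOn_finsetSum _ fun ψ _ =>
        hcont f ψ).intervalIntegrable
    · apply ContinuousOn.intervalIntegrable
      apply ContinuousOn.mul continuousOn_const
      apply ContinuousOn.inv₀ continuousOn_id
      intro x hx
      have : (1 : ℝ) ≤ x := hsub hx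
      simp only [id]
      linarith
    · intro y hy
      rw [Set.mem_Icc] at hy
      have hy0 : 0 < y := by linarith [hy.1]
      have h3 := hB y hy.1 hy.2
      simp only [← sum_div]
      rw [div_eq_mul_inv]
      apply mul_le_mul_of_nonneg_right _ (by positivity)
      refine le_trans (le_of_eq ?_) h3
      apply sum_congr rfl
      intro f _
      apply sum_congr rfl
      intro ψ _
      rw [PGc_eq ⌊Y⌋₊ g f ψ y hy0 (Nat.floor_mono hy.2)]
  refine h2.trans (le_of_eq ?_)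
  rw [intervalIntegral.integral_const_mul, integral_inv_of_pos one_pos hY0, div_one]

theorem ne_one_prim {r : ℕ} (hr : r.Prime) {χ : DirichletCharacter ℂ r} (h : χ ≠ 1) :
    χ ∈ Prim r := by
  classical
  unfold Prim
  rw [mem_filter]
  refine ⟨mem_univ _, ?_⟩
  have : NeZero r := ⟨hr.ne_zero⟩
  rw [DirichletCharacter.isPrimitive_def]
  rcases (Nat.dvd_prime hr).mp χ.conductor_dvd_level with h1 | h1
  · exact absurd (DirichletCharacter.eq_one_iff_conductor_eq_one.mpr h1) h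
  · exact h1

theorem t_PSA (hW : S_W) : S_PSA := by
  classical
  intro x q a M G B hx hM hG hB
  obtain ⟨W1, W2, W3, W4, W5, W6, W7, _⟩ := hW
  have hx0 : 0 < x := by linarith
  have hY : (1 : ℝ) ≤ 2 * x := by linarith
  -- one character
  have h1 : ∀ r ∈ G, ∀ ψ : DirichletCharacter ℂ r,
      ‖∑ n ∈ Icc 1 M, (La q a n : ℂ) * ψ (n : ZMod r) * ((w ((n : ℝ) / x) : ℝ) : ℂ)‖ ≤
        600 * ∫ y in (1 : ℝ)..(2 * x), ‖PGc ⌊2 * x⌋₊ (La q a) r ψ y‖ / y := by
    intro r _ ψ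
    refine ps_gen (fun y => w (y / x)) (fun y => w1 (y / x) / x) (fun y => w2 (y / x) / x / x)
      600 (2 * x) M hY hM ?_ ?_ ?_ ?_ ?_ (La q a) r ψ
    · intro y
      have h := (W1 (y / x)).comp y ((hasDerivAt_id y).div_const x)
      refine h.congr_deriv ?_
      ring
    · intro y
      have h := ((W2 (y / x)).comp y ((hasDerivAt_id y).div_const x)).div_const x
      refine h.congr_deriv ?_
      ring
    · exact ((W3.comp (continuous_id.div_const x)).div_const x).div_const x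
    · intro y hy
      refine (W7 (y / x) (Or.inr ?_)).1
      rw [le_div_iff₀ hx0]
      linarith
    · intro y hy1 hy2
      have hy0 : 0 < y := by linarith
      by_cases hs : y / x ≤ 1
      · obtain ⟨_, a2, a3⟩ := W7 (y / x) (Or.inl hs)
        rw [a2, a3]
        simp only [zero_div, mul_zero, add_zero, abs_zero]
        positivity
      · have b1 := W5 (y / x)
        have b2 := W6 (y / x)
        have hs2 : y / x ≤ 2 := by
          rw [div_le_iff₀ hx0]
          linarith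
        have hs0 : 0 < y / x := by positivity
        rw [le_div_iff₀ hy0]
        have e : |w1 (y / x) / x + y * (w2 (y / x) / x / x)| * y =
            |w1 (y / x) * (y / x) + w2 (y / x) * (y / x) ^ 2| := by
          rw [← abs_of_pos hy0, ← abs_mul, abs_of_pos hy0]
          congr 1
          field_simp
        rw [e]
        refine (abs_add_le _ _).trans ?_
        rw [abs_mul, abs_mul, abs_of_pos hs0, abs_of_pos (by positivity : 0 < (y / x) ^ 2)]
        have c1 : |w1 (y / x)| * (y / x) ≤ 12 * 2 := mul_le_mul b1 hs2 hs0.le (by norm_num)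
        have c2 : |w2 (y / x)| * (y / x) ^ 2 ≤ 120 * 4 := by
          refine mul_le_mul b2 ?_ (by positivity) (by norm_num)
          nlinarith
        linarith
  -- the sum over the characters
  have h2 : ∀ r ∈ G, CR x q a M r ≤
      600 * ∑ ψ ∈ Prim r, ∫ y in (1 : ℝ)..(2 * x), ‖PGc ⌊2 * x⌋₊ (La q a) r ψ y‖ / y := by
    intro r hr
    unfold CR
    rw [mul_sum]
    have hnn : ∀ ψ : DirichletCharacter ℂ r,
        0 ≤ 600 * ∫ y in (1 : ℝ)..(2 * x), ‖PGc ⌊2 * x⌋₊ (La q a) r ψ y‖ / y := by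
      intro ψ
      exact (norm_nonneg _).trans (h1 r hr ψ)
    refine le_trans ?_ (sum_le_sum_of_subset_of_nonneg (s := (univ : Finset (DirichletCharacter ℂ r)).erase 1)
      (fun χ hχ => ne_one_prim (hG r hr) (ne_of_mem_erase hχ)) (fun ψ _ _ => hnn ψ))
    refine sum_le_sum fun χ _ => ?_
    refine le_trans (le_of_eq ?_) (h1 r hr χ)
    congr 1
    rw [sum_filter]
    refine sum_congr rfl fun n _ => ?_
    unfold La rc
    split_ifs
    · ring
    · simp
  refine (sum_le_sum h2).trans ?_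
  rw [← mul_sum]
  have h3 := is_gen G (2 * x) B hY (La q a) hB
  linarith

end Pool.Agent.D0H86.EC
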