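import Pool.Agent.D0H44.EC.StmB

/-! Project EC, package PVA: the inequality of Pólya and Vinogradov inside a class. -/

set_option autoImplicit false

open Finset

namespace Pool.Agent.D0H86.EC

open Pool.Agent.H398R2.BV Pool.Agent.H410R2
open Pool.Agent.D0H44.EC

theorem sum_shift {r : ℕ} (ψ : DirichletCharacter ℂ r) (c J : ℕ) :
    ∑ j ∈ range J, ψ (((c + 1 + j : ℕ)) : ZMod r) =
      ∑ k ∈ Icc 1 (c + J), ψ (k : ZMod r) - ∑ k ∈ Icc 1 c, ψ (k : ZMod r) := by
  have h : ∀ n : ℕ, ∑ k ∈ Icc 1 n, ψ (k : ZMod r) = ∑ j ∈ range n, ψ ((j + 1 : ℕ) : ZMod r) := by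
    intro n
    rw [range_eq_Ico, sum_Ico_add' (fun j : ℕ => ψ (j : ZMod r)) 0 n 1]
    rfl
  rw [h, h, sum_range_add, add_sub_cancel_left]
  refine sum_congr rfl fun j _ => ?_
  congr 2
  ring

theorem t_PVA : S_PVA := by
  intro r q b N hr hq hrq ψ hψ
  have : Fact r.Prime := ⟨hr⟩
  have hprim : ψ.IsPrimitive := by
    classical
    have h := hψ
    unfold Prim at h
    exact (mem_filter.mp h).2
  have hq0 : (q : ZMod r) ≠ 0 := by
    intro h
    exact hrq ((ZMod.natCast_eq_zero_iff q r).mp h)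
  obtain ⟨b₁, hb1, hb2, hb3⟩ : ∃ b₁ : ℕ, 1 ≤ b₁ ∧ b₁ ≤ q ∧ b₁ ≡ b [MOD q] := by
    by_cases h : b % q = 0
    · exact ⟨q, hq, le_rfl, by unfold Nat.ModEq; rw [h, Nat.mod_self]⟩
    · exact ⟨b % q, Nat.pos_of_ne_zero h, (Nat.mod_lt _ hq).le, Nat.mod_modEq _ _⟩
  -- the class is a progression
  have hset : (Icc 1 N).filter (fun i => i ≡ b [MOD q]) =
      (range ((N + q - b₁) / q)).image (fun j => b₁ + q * j) := by
    ext i
    rw [mem_filter, mem_Icc, mem_image]
    constructor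
    · rintro ⟨⟨h1, h2⟩, h3⟩
      have h4 : b₁ ≤ i := by
        by_contra h
        push Not at h
        have h5 : i ≡ b₁ [MOD q] := h3.trans hb3.symm
        have h6 := (Nat.modEq_iff_dvd' h.le).mp h5
        have h7 := Nat.le_of_dvd (by omega) h6
        omega
      have h5 : q ∣ i - b₁ := (Nat.modEq_iff_dvd' h4).mp (hb3.trans h3.symm)
      obtain ⟨j, hj⟩ := h5
      refine ⟨j, ?_, by omega⟩
      rw [mem_range, Nat.lt_iff_add_one_le, Nat.le_div_iff_mul_le hq]
      have : (j + 1) * q = q * j + q := by ring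
      omega
    · rintro ⟨j, hj, rfl⟩
      rw [mem_range, Nat.lt_iff_add_one_le, Nat.le_div_iff_mul_le hq] at hj
      have h1 : (j + 1) * q = q * j + q := by ring
      refine ⟨⟨by omega, by omega⟩, ?_⟩
      refine Nat.ModEq.trans ?_ hb3
      unfold Nat.ModEq
      rw [Nat.add_mul_mod_self_left]
  rw [hset, sum_image (by
    intro i _ j _ hij
    have h : q * i = q * j := Nat.add_left_cancel hij
    exact Nat.eq_of_mul_eq_mul_left hq h)]
  -- the shift
  set c : ZMod r := (b₁ : ZMod r) * (q : ZMod r)⁻¹ - 1 with hc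
  have hcv : ((c.val : ℕ) : ZMod r) = c := ZMod.natCast_zmod_val c
  have key : ∀ j : ℕ, ψ ((b₁ + q * j : ℕ) : ZMod r) = ψ (q : ZMod r) * ψ ((c.val + 1 + j : ℕ) : ZMod r) := by
    intro j
    rw [← map_mul]
    congr 1
    push_cast
    rw [hcv, hc]
    field_simp
    ring
  rw [sum_congr rfl (fun j _ => key j), ← mul_sum, sum_shift, norm_mul]
  have h1 := ψ.norm_le_one (q : ZMod r)
  have h2 := H343.PVaux.PV_plain r (c.val + (N + q - b₁) / q) hr.two_le ψ hprim
  have h3 := H343.PVaux.PV_plain r c.val hr.two_le ψ hprim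
  have h4 := norm_sub_le (∑ k ∈ Icc 1 (c.val + (N + q - b₁) / q), ψ (k : ZMod r))
    (∑ k ∈ Icc 1 c.val, ψ (k : ZMod r))
  calc _ ≤ 1 * (Real.sqrt r * (1 + Real.log r) + Real.sqrt r * (1 + Real.log r)) := by
        apply mul_le_mul h1 (h4.trans (add_le_add h2 h3)) (norm_nonneg _) zero_le_one
    _ = _ := by ring

end Pool.Agent.D0H86.EC
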