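import Pool.Agent.D0H44.EC.StmB

/-! Project EC, package SPA: separation of variables inside a class. -/

set_option autoImplicit false

open Finset MeasureTheory

namespace Pool.Agent.D0H86.EC

open Pool.Agent.Helper112 Pool.Agent.Helper112.BLB
open Pool.Agent.H398R2.BV Pool.Agent.H410R2
open Pool.Agent.D0H44.EC

theorem split (q a : ℕ) (hq : 1 ≤ q) (α β : ℕ → ℝ) (n : ℕ) :
    rc q a (fun n => ∑ i ∈ n.divisorsAntidiagonal, α i.1 * β i.2) n =
      ∑ m ∈ range q, ∑ i ∈ n.divisorsAntidiagonal, rc q m α i.1 * rd q a m β i.2 := by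
  rw [sum_comm]
  have key : ∀ i ∈ n.divisorsAntidiagonal,
      ∑ m ∈ range q, rc q m α i.1 * rd q a m β i.2 =
        if n ≡ a [MOD q] then α i.1 * β i.2 else 0 := by
    intro i hi
    have hn : i.1 * i.2 = n := (Nat.mem_divisorsAntidiagonal.mp hi).1
    rw [sum_eq_single (i.1 % q)]
    · have h1 : i.1 ≡ i.1 % q [MOD q] := (Nat.mod_modEq _ _).symm
      have h2 : (i.1 % q * i.2 ≡ a [MOD q]) ↔ (n ≡ a [MOD q]) := by
        have h3 : i.1 % q * i.2 ≡ n [MOD q] := by
          rw [← hn]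
          exact (Nat.mod_modEq _ _).mul_right _
        exact ⟨fun h => h3.symm.trans h, fun h => h3.trans h⟩
      unfold rc rd
      rw [if_pos h1]
      by_cases h : n ≡ a [MOD q]
      · rw [if_pos h, if_pos (h2.mpr h)]
      · rw [if_neg h, if_neg (fun h' => h (h2.mp h')), mul_zero]
    · intro m hm hne
      unfold rc
      rw [if_neg, zero_mul]
      intro h
      apply hne
      rw [mem_range] at hm
      have h' : m % q = i.1 % q := h.symm
      rwa [Nat.mod_eq_of_lt hm] at h'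
    · intro h
      exact absurd (mem_range.mpr (Nat.mod_lt _ hq)) h
  rw [sum_congr rfl key]
  unfold rc
  split_ifs <;> simp

theorem TL_sum (X : ℝ) (f : ℕ) (ψ : DirichletCharacter ℂ f) (s : Finset ℕ) (g : ℕ → ℕ → ℝ) :
    TL X f ψ (fun n => ∑ m ∈ s, g m n) = ∑ m ∈ s, TL X f ψ (g m) := by
  unfold TL
  rw [sum_comm]
  refine sum_congr rfl fun n _ => ?_
  push_cast
  rw [sum_mul, sum_mul]

theorem t_SPA : S_SPA := by
  intro X q a G α β K hX hq hK
  have h1 : ∀ r ∈ G, ∀ ψ ∈ Prim r,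
      ‖TL X r ψ (rc q a (fun n => ∑ i ∈ n.divisorsAntidiagonal, α i.1 * β i.2))‖ ≤
      ∑ m ∈ range q, ∫ t in Set.Icc 1 X,
        ‖A ⌊t⌋₊ (rc q m α) r ψ‖ * ‖A ⌊X / t⌋₊ (rd q a m β) r ψ‖ * t⁻¹ := by
    intro r _ ψ _
    have h : (rc q a (fun n => ∑ i ∈ n.divisorsAntidiagonal, α i.1 * β i.2)) =
        fun n => ∑ m ∈ range q, ∑ i ∈ n.divisorsAntidiagonal, rc q m α i.1 * rd q a m β i.2 :=
      funext (split q a hq α β)
    rw [h, TL_sum]
    exact (norm_sum_le _ _).trans (sum_le_sum fun m _ => TL_le X hX r ψ _ _)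
  refine (sum_le_sum fun r hr => sum_le_sum fun ψ hψ => h1 r hr ψ hψ).trans ?_
  have h2 : ∑ r ∈ G, ∑ ψ ∈ Prim r, ∑ m ∈ range q, ∫ t in Set.Icc 1 X,
        ‖A ⌊t⌋₊ (rc q m α) r ψ‖ * ‖A ⌊X / t⌋₊ (rd q a m β) r ψ‖ * t⁻¹ =
      ∫ t in Set.Icc 1 X, ∑ r ∈ G, ∑ ψ ∈ Prim r, ∑ m ∈ range q,
        ‖A ⌊t⌋₊ (rc q m α) r ψ‖ * ‖A ⌊X / t⌋₊ (rd q a m β) r ψ‖ * t⁻¹ := by
    rw [integral_finsetSum]
    · refine sum_congr rfl fun r _ => ?_
      rw [integral_finsetSum]
      · refine sum_congr rfl fun ψ _ => ?_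
        rw [integral_finsetSum]
        intro m _
        exact prod_integrable X r ψ _ _
      · intro ψ _
        exact integrable_finsetSum _ fun m _ => prod_integrable X r ψ _ _
    · intro r _
      exact integrable_finsetSum _ fun ψ _ => integrable_finsetSum _ fun m _ =>
        prod_integrable X r ψ _ _
  rw [h2]
  have hinv : IntegrableOn (fun t : ℝ => K * t⁻¹) (Set.Icc 1 X) := by
    apply Integrable.const_mul
    apply ContinuousOn.integrableOn_Icc
    apply ContinuousOn.inv₀ continuousOn_id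
    intro x hx
    have := hx.1
    simp only [id]
    linarith
  have h3 : ∫ t in Set.Icc 1 X, K * t⁻¹ = K * Real.log X := by
    rw [integral_const_mul, integral_Icc_eq_integral_Ioc, ← intervalIntegral.integral_of_le hX,
      integral_inv_of_pos (by norm_num) (by linarith)]
    simp
  rw [← h3]
  apply setIntegral_mono_on _ hinv measurableSet_Icc
  · intro t ht
    have h1 := ht.1
    have ht0 : 0 < t := by linarith
    have h4 := hK t ht.1 ht.2
    calc ∑ r ∈ G, ∑ ψ ∈ Prim r, ∑ m ∈ range q,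
        ‖A ⌊t⌋₊ (rc q m α) r ψ‖ * ‖A ⌊X / t⌋₊ (rd q a m β) r ψ‖ * t⁻¹ =
        (∑ m ∈ range q, ∑ r ∈ G, P ⌊t⌋₊ ⌊X / t⌋₊ (rc q m α) (rd q a m β) r) * t⁻¹ := by
          rw [sum_comm, sum_mul]
          refine sum_congr rfl fun r _ => ?_
          rw [sum_comm, sum_mul]
          refine sum_congr rfl fun m _ => ?_
          unfold P Prim
          rw [sum_mul]
      _ ≤ K * t⁻¹ := mul_le_mul_of_nonneg_right h4 (by positivity)
  · exact integrable_finsetSum _ fun r _ => integrable_finsetSum _ fun ψ _ =>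
      integrable_finsetSum _ fun m _ => prod_integrable X r ψ _ _

end Pool.Agent.D0H86.EC
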